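import Pool.Agent.helper93.CR.SpecA
import Pool.Agent.helper99.HF.FOU

/-!
Row `cr:FOW` (MP_07c750_an): the cell of the sum is almost uniform, window length `w`.
-/

set_option autoImplicit false

open Finset

namespace Pool.Agent.CR

open Pool.Agent.HF (H sm ch vp FOU_digit FOU_geom FOU_num)

theorem FOW_gen (hC : HF.COL_stmt) (hF : HF.FEJ_stmt) (hX : HF.CHX_stmt) (w m a c k : ℕ) (hw : 8 ≤ w) (hk : (k : ℝ) = 4 ^ (2 * m + 3 + 2 * w))
    (X : Fin (k + 1) → Finset ℕ) (hma : m ≤ a) (hs : 2 * m + 3 ≤ a) (hne : ∀ i, (X i).Nonempty)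
    (hdiam : ∀ i, i ≠ 0 → ∀ u ∈ X i, ∀ v ∈ X i, |(u : ℝ) - v| ≤ (2 : ℝ) ^ (a - (2 * m + 3)))
    (hgood : (k : ℝ) / (2 * w) ≤ (({i | i ≠ 0 ∧ (4 : ℝ) ^ (a - (2 * m + 3)) / 2 ^ (3 * w) ≤ vp (X i)} : Set (Fin (k + 1))).ncard : ℝ)) :
    ((m : ℝ) - 3) * Real.log 2 ≤ H (Fintype.piFinset X) (fun u => (c + sm u) / 2 ^ (a - m) % 2 ^ m) := by
  classical
  obtain ⟨hX1, hX2, hX3⟩ := hX
  obtain ⟨good, hgd⟩ : ∃ good : Finset (Fin (k + 1)),
    good = univ.filter (fun i => i ≠ 0 ∧ (4 : ℝ) ^ (a - (2 * m + 3)) / 2 ^ (3 * w) ≤ vp (X i)) := ⟨_, rfl⟩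
  have hcard : (k : ℝ) / (2 * w) ≤ (good.card : ℝ) := by
    have e : ({i | i ≠ 0 ∧ (4 : ℝ) ^ (a - (2 * m + 3)) / 2 ^ (3 * w) ≤ vp (X i)} : Set (Fin (k + 1))) = (good : Set _) := by
      ext i
      rw [hgd]
      simp
    rw [e, Set.ncard_coe_finset] at hgood
    exact hgood
  have hMpos : (0 : ℝ) < (2 : ℝ) ^ a := by positivity
  have hsplit : (2 : ℝ) ^ a = 2 ^ (a - (2 * m + 3)) * 2 ^ (2 * m + 3) := by
    rw [← pow_add]; congr 1; omega
  have h4m : ((4 : ℝ) ^ m) * 8 = 2 ^ (2 * m + 3) := by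
    rw [pow_add, pow_mul]; norm_num
  -- the characteristic functions
  have hch : ∀ l ∈ Icc 1 (4 ^ m), ‖ch (Fintype.piFinset X) (fun u => c + sm u) (2 ^ a) ((l : ℕ) : ℤ)‖ ^ 2 ≤ (1 / 4 : ℝ) ^ l := by
    intro l hl
    rw [mem_Icc] at hl
    have hl1 : (1 : ℝ) ≤ l := by exact_mod_cast hl.1
    have hl2 : (l : ℝ) ≤ (4 : ℝ) ^ m := by exact_mod_cast hl.2
    refine le_trans ?_ (FOU_num l hl.1)
    rw [hX1 _ X c (2 ^ a) (l : ℤ) (by positivity) hne, ← prod_pow]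
    -- the good coordinates
    obtain ⟨E, hE⟩ : ∃ E : ℝ, E = 11 / 12 * (2 * Real.pi * l / (2 : ℝ) ^ a) ^ 2 * ((4 : ℝ) ^ (a - (2 * m + 3)) / 2 ^ (3 * w)) := ⟨_, rfl⟩
    have hE0 : 0 ≤ E := by rw [hE]; positivity
    have h1 : ∀ i ∈ good, ‖ch (X i) id (2 ^ a) ((l : ℕ) : ℤ)‖ ^ 2 ≤ Real.exp (-E) := by
      intro i hi
      rw [hgd, mem_filter] at hi
      have h2 := hX3 (X i) (2 ^ a) (l : ℤ) ((2 : ℝ) ^ (a - (2 * m + 3))) (hne i) (by positivity) (hdiam i hi.2.1) (by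
        have e1 : |((((l : ℕ) : ℤ)) : ℝ)| = l := by
          rw [Int.cast_natCast, abs_of_nonneg (by positivity)]
        rw [e1]
        push_cast
        rw [hsplit]
        have h5 : (0 : ℝ) < 2 ^ (a - (2 * m + 3)) := by positivity
        have h6 : (0 : ℝ) < 2 ^ (2 * m + 3) := by positivity
        rw [div_mul_eq_mul_div, div_le_one (mul_pos h5 h6)]
        have h7 : 2 * Real.pi * (l : ℝ) ≤ 2 ^ (2 * m + 3) := by
          rw [← h4m]
          have h8 : 2 * Real.pi ≤ 8 := by linarith [Real.pi_lt_d2]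
          calc 2 * Real.pi * (l : ℝ) ≤ 8 * (4 : ℝ) ^ m := mul_le_mul h8 hl2 (by positivity) (by norm_num)
            _ = 4 ^ m * 8 := by ring
        calc 2 * Real.pi * (l : ℝ) * 2 ^ (a - (2 * m + 3)) ≤ 2 ^ (2 * m + 3) * 2 ^ (a - (2 * m + 3)) :=
              mul_le_mul_of_nonneg_right h7 h5.le
          _ = _ := by ring)
      refine h2.trans (Real.exp_le_exp.2 (neg_le_neg ?_))
      rw [hE]
      push_cast
      exact mul_le_mul_of_nonneg_left hi.2.2 (by positivity)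
    have h3 : ∏ i, ‖ch (X i) id (2 ^ a) ((l : ℕ) : ℤ)‖ ^ 2 ≤ Real.exp (-E) ^ good.card := by
      rw [← prod_mul_prod_compl good]
      have h4 : ∏ i ∈ good, ‖ch (X i) id (2 ^ a) ((l : ℕ) : ℤ)‖ ^ 2 ≤ Real.exp (-E) ^ good.card := by
        rw [← prod_const]
        exact prod_le_prod (fun i _ => by positivity) h1
      have h5 : ∏ i ∈ goodᶜ, ‖ch (X i) id (2 ^ a) ((l : ℕ) : ℤ)‖ ^ 2 ≤ 1 := by
        apply prod_le_one (fun i _ => by positivity)
        intro i _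
        have := hX2 ℕ (X i) id (2 ^ a) (l : ℤ) (hne i)
        exact pow_le_one₀ (norm_nonneg _) this
      calc _ ≤ Real.exp (-E) ^ good.card * 1 :=
            mul_le_mul h4 h5 (prod_nonneg fun i _ => by positivity) (by positivity)
        _ = _ := mul_one _
    refine h3.trans ?_
    rw [← Real.exp_nat_mul]
    apply Real.exp_le_exp.2
    have h6 : 11 / 12 * Real.pi ^ 2 * (l : ℝ) ^ 2 ≤ good.card * E := by
      have hw0 : (0 : ℝ) < w := by
        have : 0 < w := by omega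
        exact_mod_cast this
      have h7 : (k : ℝ) / (2 * w) * E = 11 / 12 * Real.pi ^ 2 * (l : ℝ) ^ 2 * (2 * 2 ^ w / w) := by
        rw [hE, hsplit, hk]
        have e4 : (4 : ℝ) ^ (a - (2 * m + 3)) = (2 ^ (a - (2 * m + 3))) ^ 2 := by
          rw [← pow_mul, mul_comm _ 2, pow_mul]
          norm_num
        have e5 : (4 : ℝ) ^ (2 * m + 3 + 2 * w) = (2 ^ (2 * m + 3)) ^ 2 * (2 ^ w) ^ 4 := by
          rw [← pow_mul, ← pow_mul, show (4 : ℝ) = 2 ^ 2 by norm_num, ← pow_mul, ← pow_add]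
          congr 1
          ring
        have e6 : (2 : ℝ) ^ (3 * w) = (2 ^ w) ^ 3 := by
          rw [← pow_mul, mul_comm]
        rw [e4, e5, e6]
        have h5 : (0 : ℝ) < 2 ^ (a - (2 * m + 3)) := by positivity
        have h6 : (0 : ℝ) < 2 ^ (2 * m + 3) := by positivity
        have h8 : (0 : ℝ) < 2 ^ w := by positivity
        generalize (2 : ℝ) ^ (a - (2 * m + 3)) = x at h5 ⊢
        generalize (2 : ℝ) ^ (2 * m + 3) = y at h6 ⊢
        generalize (2 : ℝ) ^ w = z at h8 ⊢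
        field_simp
      have h9 : (1 : ℝ) ≤ 2 * 2 ^ w / w := by
        rw [le_div_iff₀ hw0, one_mul]
        have h10 : (w : ℝ) < 2 ^ w := by exact_mod_cast Nat.lt_two_pow_self
        have h11 : (0 : ℝ) < 2 ^ w := by positivity
        linarith
      have h12 : 11 / 12 * Real.pi ^ 2 * (l : ℝ) ^ 2 ≤ (k : ℝ) / (2 * w) * E := by
        rw [h7]
        exact le_mul_of_one_le_right (by positivity) h9
      refine h12.trans ?_
      exact mul_le_mul_of_nonneg_right hcard hE0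
    linarith
  -- the collision probability
  have hXne : (Fintype.piFinset X).Nonempty := Fintype.piFinset_nonempty.2 hne
  have hcol := hF _ (Fintype.piFinset X) (fun u => c + sm u) a (a - m) (4 ^ m) hXne (by omega) (Nat.one_le_pow _ _ (by norm_num))
  have hS : ∑ l ∈ Icc 1 (4 ^ m), ‖ch (Fintype.piFinset X) (fun u => c + sm u) (2 ^ a) ((l : ℕ) : ℤ)‖ ^ 2 ≤ 1 / 3 :=
    (sum_le_sum hch).trans (FOU_geom _)
  have h2m : (0 : ℝ) < 2 ^ m := by positivity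
  have hcoef : 4 * ((2 : ℝ) ^ (a - m) / 2 ^ a) *
      (1 + 2 * ∑ l ∈ Icc 1 (4 ^ m), ‖ch (Fintype.piFinset X) (fun u => c + sm u) (2 ^ a) ((l : ℕ) : ℤ)‖ ^ 2) +
      (2 : ℝ) ^ a / (2 ^ (a - m) * 2 * ((4 ^ m : ℕ) : ℝ)) ≤ 8 / 2 ^ m := by
    have e1 : (2 : ℝ) ^ a = 2 ^ (a - m) * 2 ^ m := by rw [← pow_add]; congr 1; omega
    have e2 : (2 : ℝ) ^ (a - m) / 2 ^ a = 1 / 2 ^ m := by
      rw [e1]; field_simp
    have e3 : (2 : ℝ) ^ a / (2 ^ (a - m) * 2 * ((4 ^ m : ℕ) : ℝ)) = 1 / 2 * (1 / 2 ^ m) := by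
      have e4 : ((4 ^ m : ℕ) : ℝ) = 2 ^ m * 2 ^ m := by
        push_cast
        rw [← mul_pow]; norm_num
      rw [e1, e4]; field_simp
    rw [e2, e3]
    have h1 : (0 : ℝ) < 1 / 2 ^ m := by positivity
    have h2 : (8 : ℝ) / 2 ^ m = 8 * (1 / 2 ^ m) := by ring
    rw [h2]
    nlinarith [mul_le_mul_of_nonneg_left hS h1.le]
  have hfin := hC _ (Fintype.piFinset X) (fun u => (c + sm u) % 2 ^ a / 2 ^ (a - m)) (8 / 2 ^ m) hXne (by positivity)
    (hcol.trans (mul_le_mul_of_nonneg_right hcoef (by positivity)))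
  have e : (fun u : Fin (k + 1) → ℕ => (c + sm u) % 2 ^ a / 2 ^ (a - m)) =
      fun u => (c + sm u) / 2 ^ (a - m) % 2 ^ m := by
    funext u
    exact FOU_digit _ a m hma
  rw [e] at hfin
  refine le_trans (le_of_eq ?_) hfin
  rw [Real.log_div (by norm_num) (by positivity), Real.log_pow, show (8 : ℝ) = 2 ^ 3 by norm_num, Real.log_pow]
  push_cast
  ring

theorem FOW_proof (hC : HF.COL_stmt) (hF : HF.FEJ_stmt) (hX : HF.CHX_stmt) : FOW_stmt := by
  intro w m a c X hw hma hs hne hdiam hgood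
  exact FOW_gen hC hF hX w m a c (4 ^ (2 * m + 3 + 2 * w)) hw (by push_cast; rfl) X hma hs hne hdiam (by push_cast; exact hgood)

end Pool.Agent.CR
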